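import Pool.Agent.N279.MBP.Main

/-!
MP_ce8478_an, Q1: the answer is affirmative. If `A = B ∘ C` is a maximal Blaschke product, where
`B` and `C` are analytic on the disc with `|B| ≤ 1` and `|C| < 1`, then `C` is a maximal Blaschke
product.
-/

open Metric
open Pool.Agent.N279.MBP

namespace Pool.Agent.Results.MP_ce8478_an.InnerFactor

/-- If `A = B ∘ C` on the unit disc, where `B` is analytic with values in the closed unit disc and
`C` is analytic with values in the open unit disc, and `A` is a maximal Blaschke product, then `C`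
is a maximal Blaschke product. -/
theorem result (A B C : ℂ → ℂ) (hB : DifferentiableOn ℂ B (ball 0 1))
    (hB1 : ∀ z ∈ ball (0 : ℂ) 1, ‖B z‖ ≤ 1) (hC : DifferentiableOn ℂ C (ball 0 1))
    (hC1 : ∀ z ∈ ball (0 : ℂ) 1, ‖C z‖ < 1) (hA : ∀ z ∈ ball (0 : ℂ) 1, A z = B (C z))
    (hmax : IsMaxBlaschke A) : IsMaxBlaschke C :=
  Pool.Agent.N279.MBP.main A B C hB hB1 hC hC1 hA hmax

end Pool.Agent.Results.MP_ce8478_an.InnerFactor
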